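import Pool.Agent.H934R2.Ch.Spread

/-!
Chamberland's real extension `f` of the Collatz map: classification of all attracting cycles of `f`
in `(0,∞)`; those with `max ≤ 3 min` are the two known ones.
-/

set_option autoImplicit false

namespace Pool.Agent.Results.MP_a247fa_nt.AttractingCycles

open Pool.Agent.H934R2.Ch

theorem result :
    ∃ a : ℝ, a ∈ Set.Icc (1.19 : ℝ) 1.196 ∧ f (f a) = a ∧
      (∀ a' ∈ Set.Icc (1.19 : ℝ) 1.2, f (f a') = a' → a' = a) ∧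
      (∀ y, y = 1 ∨ y = 2 ∨ y = a ∨ y = f a → AttrPt y) ∧
      -- attracting cycles with `max ≤ 3 min` are `A₁` and `A₂`
      (∀ y, AttrPt y → (∀ i j, f^[i] y ≤ 3 * f^[j] y) → y = 1 ∨ y = 2 ∨ y = a ∨ y = f a) ∧
      -- the general classification
      (∀ y, AttrPt y →
        (y = 1 ∨ y = 2 ∨ y = a ∨ y = f a) ∨
        (∃ m : ℕ, 3 ≤ m ∧ T^[Function.minimalPeriod f y] m = m ∧
          (∀ k, ((T^[k] m : ℕ) : ℝ) ≤ f^[k] y ∧
            f^[k] y ≤ (T^[k] m : ℕ) + 5 / (6 * (2 * ((T^[k] m : ℕ) : ℝ) + 1))) ∧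
          ∃ i j, 3 * f^[j] y < f^[i] y) ∨
        ((∃ i j, 5 * f^[j] y < f^[i] y) ∧
          (∀ (x : ℝ) (n : ℕ), 1 ≤ n → (n : ℝ) ≤ x → x ≤ n + 5 / (6 * (2 * (n : ℝ) + 1)) →
            ¬ Attracts y x) ∧
          (∃ k, |deriv f (f^[k] y)| < 1) ∧
          ∀ k, |deriv f (f^[k] y)| < 1 → ∃ n : ℕ, n % 2 = 0 ∧ 2 ≤ n ∧
            (n : ℝ) - 3 / (4 * (2 * n + 1)) < f^[k] y ∧ f^[k] y < n ∧
            (n : ℝ) / 2 - 5 / (93 * (2 * n + 1)) ≤ f^[k + 1] y ∧ f^[k + 1] y < n / 2 ∧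
            ∃ l, 5 * n < 2 * T^[l] n ∧ ∀ i, 1 ≤ i → i ≤ l →
              ((T^[i] n : ℕ) : ℝ) - 1 / 4 < f^[k + i] y ∧ f^[k + i] y < (T^[i] n : ℕ))) := by
  obtain ⟨a, ha, hga⟩ := exists_a2
  have key := fun y (hy : AttrPt y) => attracting_class ha hga hy
  refine ⟨a, ha, hga, fun a' ha' h => a2_unique ha hga ha' h, fun y h => known_attr ha hga h,
    ?_, ?_⟩
  · intro y hy h3
    rcases key y hy with h | ⟨_, _, _, _, i, j, hij⟩ | ⟨⟨i, j, hij⟩, _⟩
    · exact h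
    · exact absurd (h3 i j) (not_le.2 hij)
    · have h4 := h3 i j
      have h5 : 0 < f^[j] y := by
        have h6 := h3 j j
        by_contra hneg
        have h7 : f^[j] y < 0 := by linarith
        linarith
      linarith
  · intro y hy
    rcases key y hy with h | ⟨m, hm, hT, hk, hij⟩ | ⟨hij, hA, hex, hall⟩
    · left; exact h
    · right; left
      exact ⟨m, hm, hT, fun k => hk k, hij⟩
    · right; right
      refine ⟨hij, fun x n hn h1 h2 => hA x ⟨n, hn, h1, h2⟩, by rw [deriv_f]; exact hex, ?_⟩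
      intro k hk
      rw [deriv_f] at hk
      obtain ⟨n, h1, h2, h3, h4, l, hl, hl'⟩ := hall k hk
      exact ⟨n, h1, h2, h3.1, h3.2, h4.1, h4.2, l, hl, fun i hi1 hi2 => hl' i hi1 hi2⟩

end Pool.Agent.Results.MP_a247fa_nt.AttractingCycles
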