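import Pool.Agent.H355R2.Chamb.Attr
import Pool.Agent.H355R2.Chamb.Dens

set_option autoImplicit false

/-!
A positive proportion of the critical points of the real extension
`f x = x + 1/4 - (2 x + 1)/4 cos (π x)` of the `3x+1` map are attracted to the cycle `{1, 2}`.

* `Chamb.Real`: near an integer orbit `m 0, m 1, ...` the deviation `e j` of a real orbit satisfies
  `|e j| / m j ≤ (|e 0| / m 0) exp (20 r Σ (m i)^2)`; so a real orbit shadows the integer orbit as
  long as `Σ (m i / m 0)^2` is bounded and the first deviation is `≤ const / m 0`.  Along even steps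
  `m |e|` is contracted by `7/8`.  Points within `1/100` of `1` are attracted.  Critical points near
  even `n` are within `1 / (3 n)` of `n`.
* `Chamb.Dens`: for a positive proportion of `n` the orbit of `n` reaches `1` and
  `Σ (T^i n / n)^2 ≤ Λ` (the team's theorem on the integers reaching `1` in the expected time,
  the law of large numbers for the descent, and an exponential moment of the parity word).
* The numbers `2^K n` with a fixed large `K` give the result.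
-/

namespace Pool.Agent.Results.MP_a247fa_nt.CriticalPoints

open Filter Topology

/-- The real analytic extension of the `3x+1` map. -/
noncomputable def f (x : ℝ) : ℝ := x + 1 / 4 - (2 * x + 1) / 4 * Real.cos (Real.pi * x)

/-- The orbit of `x` under `f` converges to the cycle `{1, 2}`: some tail `f^s x, f^(s+2) x, ...`
converges to `1`. -/
def Attracted (x : ℝ) : Prop := ∃ s : ℕ, Tendsto (fun j : ℕ => f^[s + 2 * j] x) atTop (𝓝 1)

/-- There is `δ > 0` such that for all large `X`, for at least `δ X` of the integers `1 ≤ n ≤ X`: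
`f` has a critical point in `(n - 1/2, n + 1/2)`, all critical points of `f` in that interval are
attracted to `{1, 2}`, and so is the whole interval `[n - 1/(3n), n + 1/(3n)]`. -/
theorem result : ∃ δ : ℝ, 0 < δ ∧ ∀ᶠ X : ℝ in atTop,
    δ * X ≤ (Set.ncard {n : ℕ | 1 ≤ n ∧ (n : ℝ) ≤ X ∧
      (∃ c : ℝ, |c - n| < 1 / 2 ∧ deriv f c = 0) ∧
      (∀ c : ℝ, |c - n| < 1 / 2 → deriv f c = 0 → Attracted c) ∧
      ∀ x : ℝ, |x - n| ≤ 1 / (3 * n) → Attracted x} : ℝ) := by
  obtain ⟨δ, hδ, Λ, hΛ, X0, h⟩ := Pool.Agent.H355R2.Chamb.dens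
  obtain ⟨K, hK⟩ : ∃ K : ℕ, 200 * (7 / 8 : ℝ) ^ K * Λ ≤ 1 := by
    obtain ⟨K, hK⟩ := exists_pow_lt_of_lt_one (show (0 : ℝ) < 1 / (200 * Λ) by positivity)
      (show (7 / 8 : ℝ) < 1 by norm_num)
    refine ⟨K, ?_⟩
    rw [lt_div_iff₀ (by positivity)] at hK
    linarith
  have hff : f = Pool.Agent.H355R2.Chamb.f := rfl
  set Q : ℕ → Prop := fun n => (∃ c : ℝ, |c - n| < 1 / 2 ∧ deriv f c = 0) ∧
      (∀ c : ℝ, |c - n| < 1 / 2 → deriv f c = 0 → Attracted c) ∧
      ∀ x : ℝ, |x - n| ≤ 1 / (3 * n) → Attracted x with hQ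
  have key : ∀ m : ℕ, 1 ≤ m → (∃ t : ℕ, Pool.Agent.H355R2.Chamb.T^[t] m = 1 ∧
      ∑ i ∈ Finset.range (t + 1), ((Pool.Agent.H355R2.Chamb.T^[i] m : ℕ) : ℝ) ^ 2 ≤
        Λ * (m : ℝ) ^ 2) → Q (2 ^ (K + 1) * m) := by
    rintro m hm ⟨t, ht, hs⟩
    have hK' : 200 * (7 / 8 : ℝ) ^ (K + 1) * Λ ≤ 1 := by
      have : 200 * (7 / 8 : ℝ) ^ (K + 1) * Λ = 7 / 8 * (200 * (7 / 8 : ℝ) ^ K * Λ) := by
        rw [pow_succ]; ring
      rw [this]; linarith
    have hmpos : 1 ≤ 2 ^ (K + 1) * m := Nat.mul_pos (by positivity) hm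
    have heven : (2 ^ (K + 1) * m) % 2 = 0 := by
      rw [pow_succ, mul_assoc, mul_comm (2 ^ K), mul_assoc]; omega
    have hnR : (0 : ℝ) < ((2 ^ (K + 1) * m : ℕ) : ℝ) := by exact_mod_cast hmpos
    have hgen : ∀ x : ℝ, |x - (2 ^ (K + 1) * m : ℕ)| * (2 ^ (K + 1) * m : ℕ) ≤ 1 / 3 →
        Attracted x := by
      intro x hx
      have h1 := Pool.Agent.H355R2.Chamb.attracted (K + 1) m t hm ht Λ hs hK'
        (x - (2 ^ (K + 1) * m : ℕ)) hx
      have h2 : ((2 ^ (K + 1) * m : ℕ) : ℝ) + (x - (2 ^ (K + 1) * m : ℕ)) = x := by ring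
      rw [h2] at h1
      exact h1
    refine ⟨?_, ?_, ?_⟩
    · rw [hff]
      exact Pool.Agent.H355R2.Chamb.crit_exists _ hmpos heven
    · intro c hc h0
      exact hgen c (Pool.Agent.H355R2.Chamb.crit_near _ hmpos heven c hc h0)
    · intro x hx
      apply hgen x
      calc |x - (2 ^ (K + 1) * m : ℕ)| * (2 ^ (K + 1) * m : ℕ)
          ≤ 1 / (3 * (2 ^ (K + 1) * m : ℕ)) * (2 ^ (K + 1) * m : ℕ) :=
            mul_le_mul_of_nonneg_right hx hnR.le
        _ = 1 / 3 := by field_simp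
  refine ⟨δ / 2 ^ (K + 1), by positivity, ?_⟩
  filter_upwards [eventually_ge_atTop (2 ^ (K + 1) * X0)] with X hX
  obtain ⟨S, hS, hcard⟩ := h (X / 2 ^ (K + 1)) (by
    rw [le_div_iff₀ (by positivity), mul_comm]; exact hX)
  have hfin : {n : ℕ | 1 ≤ n ∧ (n : ℝ) ≤ X ∧ Q n}.Finite := by
    apply (Set.finite_Iic ⌊X⌋₊).subset
    intro n hn
    exact Nat.le_floor hn.2.1
  have hinj : Function.Injective (fun m : ℕ => 2 ^ (K + 1) * m) := by
    intro a b hab
    exact Nat.eq_of_mul_eq_mul_left (by positivity) hab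
  have hsub : ((S.image (fun m : ℕ => 2 ^ (K + 1) * m) : Finset ℕ) : Set ℕ) ⊆
      {n : ℕ | 1 ≤ n ∧ (n : ℝ) ≤ X ∧ Q n} := by
    intro n hn
    rw [Finset.coe_image] at hn
    obtain ⟨m, hm, rfl⟩ := hn
    obtain ⟨h1, h2, h3⟩ := hS m hm
    refine ⟨Nat.mul_pos (by positivity) h1, ?_, key m h1 h3⟩
    rw [le_div_iff₀ (by positivity)] at h2
    push_cast
    linarith
  have h1 := Set.ncard_le_ncard hsub hfin
  rw [Set.ncard_coe_finset, Finset.card_image_of_injective _ hinj] at h1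
  have h2 : (S.card : ℝ) ≤ (Set.ncard {n : ℕ | 1 ≤ n ∧ (n : ℝ) ≤ X ∧ Q n} : ℝ) := by
    exact_mod_cast h1
  calc δ / 2 ^ (K + 1) * X = δ * (X / 2 ^ (K + 1)) := by ring
    _ ≤ S.card := hcard
    _ ≤ _ := h2

end Pool.Agent.Results.MP_a247fa_nt.CriticalPoints
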