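import Pool.Agent.H488R2.CH.PeriodBound

/-!
For every `p ≥ 1` Chamberland's real extension of the `3x+1` map has only finitely many
attracting cycles of period `p` in the positive half line, all of them below `6^(2^p)`.
-/

namespace Pool.Agent.Results.MP_a247fa_nt.FinitePerPeriod

open H488R2.CH

theorem result :
    ∀ f : ℝ → ℝ, (∀ y : ℝ, f y = y + 1/4 - (2*y+1)/4 * Real.cos (Real.pi * y)) →
      ∀ p : ℕ, 0 < p →
        Set.Finite {x : ℝ | 0 < x ∧ Function.minimalPeriod f x = p ∧ |deriv (f^[p]) x| < 1} ∧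
        ∀ x : ℝ, 0 < x → Function.minimalPeriod f x = p → |deriv (f^[p]) x| < 1 →
          x ≤ 6^(2^p) := by
  intro f hf p hp
  have hfF : f = F := by funext y; rw [hf]; rfl
  subst hfF
  have key : ∀ x : ℝ, 0 < x → Function.minimalPeriod F x = p → |deriv (F^[p]) x| < 1 →
      F^[p] x = x ∧ x ≤ H p := by
    intro x h0 h1 h2
    have hx : F^[p] x = x := by
      rw [← h1]; exact Function.iterate_minimalPeriod
    rw [deriv_iter] at h2
    exact ⟨hx, height_bound h0 hp hx h2⟩
  refine ⟨(finite_periodic hp (H p)).subset ?_, ?_⟩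
  · rintro x ⟨h0, h1, h2⟩
    obtain ⟨hx, hH⟩ := key x h0 h1 h2
    exact ⟨h0.le, hH, hx⟩
  · intro x h0 h1 h2
    exact (key x h0 h1 h2).2.trans (H_le hp)

end Pool.Agent.Results.MP_a247fa_nt.FinitePerPeriod
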