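import Pool.Agent.H934R2.Ch.Conv

/-!
Chamberland's real extension `f` of the Collatz map: half of the critical points of `f` in `(0,∞)`
follow Collatz orbits for all time, and their fate is exactly the Collatz question.
-/

set_option autoImplicit false

namespace Pool.Agent.Results.MP_a247fa_nt.OddCriticalPoints

open Pool.Agent.H934R2.Ch

theorem small_m {m : ℕ} (hm : 1 ≤ m) {y : ℝ} (hy : y ∈ Set.Icc (m : ℝ) (m + b m)) (h1 : y < 2) :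
    m = 1 := by
  have h2 : (m : ℝ) < 2 := lt_of_le_of_lt hy.1 h1
  have h3 : m < 2 := by exact_mod_cast h2
  omega

theorem result :
    ∃ a : ℝ, a ∈ Set.Icc (1.19 : ℝ) 1.196 ∧ f (f a) = a ∧
      (∀ a' ∈ Set.Icc (1.19 : ℝ) 1.2, f (f a') = a' → a' = a) ∧
      (∀ y, y = 1 ∨ y = 2 ∨ y = a ∨ y = f a → AttrPt y) ∧
      (∀ x : ℝ, 0 < x → deriv f x = 0 →
        ∃ n : ℕ, n % 2 = 1 ∧ ((n : ℝ) < x ∧ x < n + 1 / 2 ∨ (n : ℝ) + 1 / 2 < x ∧ x < n + 1)) ∧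
      (∀ n : ℕ, n % 2 = 1 → ∃! x : ℝ, (n : ℝ) + 1 / 2 < x ∧ x < n + 1 ∧ deriv f x = 0) ∧
      (∀ n : ℕ, n % 2 = 1 → ∃ c : ℝ, (n : ℝ) < c ∧ c < n + 1 / 2 ∧ deriv f c = 0 ∧
        (∀ x : ℝ, (n : ℝ) < x → x < n + 1 / 2 → deriv f x = 0 → x = c) ∧
        (∀ k : ℕ, ((T^[k] n : ℕ) : ℝ) ≤ f^[k] c ∧
          f^[k] c ≤ (T^[k] n : ℕ) + 5 / (6 * (2 * ((T^[k] n : ℕ) : ℝ) + 1))) ∧
        ((∃ k, T^[k] n = 1) ↔
          (Attracts 1 c ∨ Attracts a c ∨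
            ∃ K, f^[K] c ∈ Set.Icc (1.02 : ℝ) 1.05 ∧ f^[K + 2] c = f^[K] c)) ∧
        (∀ y, AttrPt y → Attracts y c →
          (y = 1 ∨ y = 2 ∨ y = a ∨ y = f a) ∨
          ∃ m : ℕ, 3 ≤ m ∧ (∃ k, T^[k] n = m) ∧ T^[Function.minimalPeriod f y] m = m ∧
            (m : ℝ) ≤ y ∧ y ≤ m + 5 / (6 * (2 * (m : ℝ) + 1)))) := by
  obtain ⟨a, ha, hga⟩ := exists_a2
  refine ⟨a, ha, hga, fun a' ha' h => a2_unique ha hga ha' h, fun y h => known_attr ha hga h,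
    fun x hx h => crit_class hx h, fun n hn => exists_unique_even n hn, ?_⟩
  intro n hn
  obtain ⟨c, ⟨h1, h2, h3⟩, huniq⟩ := exists_unique_odd n hn
  have hn1 : 1 ≤ n := by omega
  have htrap := crit_in_trap hn h1 h2 h3
  refine ⟨c, h1, h2, h3, fun x hx1 hx2 hx3 => huniq x ⟨hx1, hx2, hx3⟩, ?_, ⟨?_, ?_⟩, ?_⟩
  · intro k
    have := shadow hn1 htrap k
    exact this
  · rintro ⟨k, hk⟩
    exact conv_reach ha hga hn1 hk htrap
  · rintro (h | h | ⟨K, h, _⟩)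
    · obtain ⟨m, hm, hym, hi, _⟩ := attracts_D hn1 htrap (by rw [minPer_one]; norm_num) h
      obtain ⟨i, _, hi⟩ := hi 0
      have := small_m hm hym (by norm_num)
      exact ⟨i, by rw [hi, this]⟩
    · obtain ⟨m, hm, hym, hi, _⟩ := attracts_D hn1 htrap (by rw [minPer_a ha hga]; norm_num) h
      obtain ⟨i, _, hi⟩ := hi 0
      have := small_m hm hym (by linarith [ha.2])
      exact ⟨i, by rw [hi, this]⟩
    · exact ⟨K, small_m (T_iter_pos hn1 K) (shadow hn1 htrap K) (by linarith [h.2])⟩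
  · intro y hy hatt
    obtain ⟨m, hm, hym, hinf, hper⟩ := attracts_D hn1 htrap hy.2.1 hatt
    rcases Nat.lt_or_ge m 3 with h4 | h4
    · left; exact known_of_le_two ha hga hy hm (by omega) hym
    · right
      obtain ⟨i, _, hi⟩ := hinf 0
      exact ⟨m, h4, ⟨i, hi⟩, hper, hym.1, hym.2⟩

end Pool.Agent.Results.MP_a247fa_nt.OddCriticalPoints
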